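import Mathlib

/-!
# MP_979eef_lc: De Morgan formulas and block composition (definitions)
-/

namespace MP979

/-- De Morgan formulas over the variables `ι`: the leaf `lit i true` is the literal `x i`, the
leaf `lit i false` is its negation. -/
inductive Fml (ι : Type) : Type
  | lit (i : ι) (b : Bool) : Fml ι
  | and (p q : Fml ι) : Fml ι
  | or (p q : Fml ι) : Fml ι

namespace Fml

variable {ι : Type}

/-- The value of a formula at an assignment. -/
def eval (x : ι → Bool) : Fml ι → Bool
  | lit i b => x i == b
  | and p q => eval x p && eval x q
  | or p q => eval x p || eval x q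

/-- The depth of a formula; a literal has depth `0`. -/
def depth : Fml ι → ℕ
  | lit _ _ => 0
  | and p q => max (depth p) (depth q) + 1
  | or p q => max (depth p) (depth q) + 1

/-- The size of a formula: the number of its leaves. -/
def size : Fml ι → ℕ
  | lit _ _ => 1
  | and p q => size p + size q
  | or p q => size p + size q

/-- The largest number of OR gates among the first `k` gates of a path that goes from the root to
a leaf. -/
def orTop : ℕ → Fml ι → ℕ
  | 0, _ => 0
  | _ + 1, lit _ _ => 0
  | k + 1, and p q => max (orTop k p) (orTop k q)
  | k + 1, or p q => max (orTop k p) (orTop k q) + 1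

/-- The largest number of AND gates among the first `k` gates of a path that goes from the root to
a leaf. -/
def andTop : ℕ → Fml ι → ℕ
  | 0, _ => 0
  | _ + 1, lit _ _ => 0
  | k + 1, and p q => max (andTop k p) (andTop k q) + 1
  | k + 1, or p q => max (andTop k p) (andTop k q)

end Fml

/-- A Boolean function is non-constant if it takes both values. -/
def NonConst {n : ℕ} (f : (Fin n → Bool) → Bool) : Prop :=
  (∃ x, f x = true) ∧ ∃ x, f x = false

/-- The block composition `f ◇ g`, a function of the `n * n` variables `x (i, j)`; the `i`-th
block is `(x (i, j))_j`. -/
def comp {n : ℕ} (f g : (Fin n → Bool) → Bool) (x : Fin n × Fin n → Bool) : Bool :=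
  f (fun i => g (fun j => x (i, j)))

end MP979
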