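import Mathlib
import Pool.Agent.Lib.MP_979eef_lc.Defs

/-!
# MP_979eef_lc: De Morgan formulas, counting and expansion of the top
-/

namespace MP979

namespace Fml

variable {ι : Type}

lemma size_pos (φ : Fml ι) : 1 ≤ φ.size := by
  induction φ with
  | lit i b => simp [size]
  | and p q hp hq => simp only [size]; omega
  | or p q hp hq => simp only [size]; omega

lemma size_le (φ : Fml ι) : φ.size ≤ 2 ^ φ.depth := by
  induction φ with
  | lit i b => simp [size, depth]
  | and p q hp hq =>
    simp only [size, depth, pow_succ]
    have h1 : 2 ^ p.depth ≤ 2 ^ max p.depth q.depth :=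
      Nat.pow_le_pow_right (by norm_num) (le_max_left _ _)
    have h2 : 2 ^ q.depth ≤ 2 ^ max p.depth q.depth :=
      Nat.pow_le_pow_right (by norm_num) (le_max_right _ _)
    omega
  | or p q hp hq =>
    simp only [size, depth, pow_succ]
    have h1 : 2 ^ p.depth ≤ 2 ^ max p.depth q.depth :=
      Nat.pow_le_pow_right (by norm_num) (le_max_left _ _)
    have h2 : 2 ^ q.depth ≤ 2 ^ max p.depth q.depth :=
      Nat.pow_le_pow_right (by norm_num) (le_max_right _ _)
    omega

/-! ### Duality -/

/-- The dual formula, which computes the negation. -/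
def dual : Fml ι → Fml ι
  | lit i b => lit i (!b)
  | and p q => or (dual p) (dual q)
  | or p q => and (dual p) (dual q)

lemma eval_dual (x : ι → Bool) (φ : Fml ι) : (dual φ).eval x = !(φ.eval x) := by
  induction φ with
  | lit i b => simp only [dual, eval]; cases x i <;> cases b <;> rfl
  | and p q hp hq => simp only [dual, eval, hp, hq, Bool.not_and]
  | or p q hp hq => simp only [dual, eval, hp, hq, Bool.not_or]

lemma size_dual (φ : Fml ι) : (dual φ).size = φ.size := by
  induction φ with
  | lit i b => rfl
  | and p q hp hq => simp only [dual, size, hp, hq]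
  | or p q hp hq => simp only [dual, size, hp, hq]

lemma depth_dual (φ : Fml ι) : (dual φ).depth = φ.depth := by
  induction φ with
  | lit i b => rfl
  | and p q hp hq => simp only [dual, depth, hp, hq]
  | or p q hp hq => simp only [dual, depth, hp, hq]

lemma orTop_dual (φ : Fml ι) (k : ℕ) : orTop k (dual φ) = andTop k φ := by
  induction φ generalizing k with
  | lit i b => cases k <;> rfl
  | and p q hp hq => cases k with
    | zero => rfl
    | succ k => simp only [dual, orTop, andTop, hp, hq]
  | or p q hp hq => cases k with
    | zero => rfl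
    | succ k => simp only [dual, orTop, andTop, hp, hq]

/-! ### Expansion of the top -/

/-- A formula with at most `m` OR gates among the first `k` gates of every path is an AND of at
most `2 ^ (k * 2 ^ m)` formulas of size at most `2 ^ m * 2 ^ (depth - k)`. -/
theorem expand (k : ℕ) : ∀ (m : ℕ) (φ : Fml ι), orTop k φ ≤ m →
    ∃ L : List (Fml ι), (∀ x : ι → Bool, φ.eval x = true ↔ ∀ ψ ∈ L, ψ.eval x = true) ∧
      L.length ≤ 2 ^ (k * 2 ^ m) ∧ ∀ ψ ∈ L, ψ.size ≤ 2 ^ m * 2 ^ (φ.depth - k) := by
  induction k with
  | zero =>
    intro m φ _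
    refine ⟨[φ], fun x => by simp, by simp, ?_⟩
    intro ψ hψ
    rw [List.mem_singleton] at hψ
    subst hψ
    have h1 := size_le ψ
    have h2 : 1 ≤ 2 ^ m := Nat.one_le_two_pow
    rw [Nat.sub_zero]
    nlinarith
  | succ k ih =>
    intro m φ hφ
    cases φ with
    | lit i b =>
      refine ⟨[lit i b], fun x => by simp, ?_, ?_⟩
      · simpa using Nat.one_le_two_pow
      · intro ψ hψ
        rw [List.mem_singleton] at hψ
        subst hψ
        simp only [size, depth]
        have h2 : 1 ≤ 2 ^ m := Nat.one_le_two_pow
        simpa using h2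
    | and p q =>
      simp only [orTop] at hφ
      obtain ⟨L1, h11, h12, h13⟩ := ih m p (le_trans (le_max_left _ _) hφ)
      obtain ⟨L2, h21, h22, h23⟩ := ih m q (le_trans (le_max_right _ _) hφ)
      refine ⟨L1 ++ L2, ?_, ?_, ?_⟩
      · intro x
        simp only [eval, Bool.and_eq_true, h11, h21, List.mem_append]
        constructor
        · rintro ⟨h1, h2⟩ ψ (hψ | hψ)
          · exact h1 ψ hψ
          · exact h2 ψ hψ
        · intro h
          exact ⟨fun ψ hψ => h ψ (Or.inl hψ), fun ψ hψ => h ψ (Or.inr hψ)⟩
      · rw [List.length_append]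
        have h2 : 1 ≤ 2 ^ m := Nat.one_le_two_pow
        calc L1.length + L2.length ≤ 2 ^ (k * 2 ^ m) + 2 ^ (k * 2 ^ m) := by omega
          _ = 2 ^ (k * 2 ^ m + 1) := by rw [pow_succ]; ring
          _ ≤ 2 ^ ((k + 1) * 2 ^ m) := Nat.pow_le_pow_right (by norm_num) (by
              rw [add_mul, one_mul]; omega)
      · intro ψ hψ
        rw [List.mem_append] at hψ
        simp only [depth]
        rcases hψ with hψ | hψ
        · refine le_trans (h13 ψ hψ) (Nat.mul_le_mul_left _ (Nat.pow_le_pow_right (by norm_num) ?_))
          have := le_max_left p.depth q.depth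
          omega
        · refine le_trans (h23 ψ hψ) (Nat.mul_le_mul_left _ (Nat.pow_le_pow_right (by norm_num) ?_))
          have := le_max_right p.depth q.depth
          omega
    | or p q =>
      simp only [orTop] at hφ
      obtain ⟨m, rfl⟩ : ∃ m', m = m' + 1 := ⟨m - 1, by omega⟩
      have hφ' : max (orTop k p) (orTop k q) ≤ m := by omega
      obtain ⟨L1, h11, h12, h13⟩ := ih m p (le_trans (le_max_left _ _) hφ')
      obtain ⟨L2, h21, h22, h23⟩ := ih m q (le_trans (le_max_right _ _) hφ')
      refine ⟨(L1 ×ˢ L2).map (fun c => or c.1 c.2), ?_, ?_, ?_⟩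
      · intro x
        simp only [eval, Bool.or_eq_true, h11, h21, List.mem_map, Prod.exists,
          List.mem_product]
        constructor
        · rintro (h | h) ψ ⟨a, b, ⟨ha, hb⟩, rfl⟩
          · simp [eval, h a ha]
          · simp [eval, h b hb]
        · intro h
          by_contra hcon
          push Not at hcon
          obtain ⟨⟨a, ha, ha'⟩, ⟨b, hb, hb'⟩⟩ := hcon
          have := h (or a b) ⟨a, b, ⟨ha, hb⟩, rfl⟩
          simp only [eval, Bool.or_eq_true] at this
          rcases this with h | h
          · exact ha' h
          · exact hb' h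
      · rw [List.length_map, List.length_product]
        calc L1.length * L2.length ≤ 2 ^ (k * 2 ^ m) * 2 ^ (k * 2 ^ m) := Nat.mul_le_mul h12 h22
          _ = 2 ^ (k * 2 ^ (m + 1)) := by rw [← pow_add, pow_succ]; congr 1; ring
          _ ≤ 2 ^ ((k + 1) * 2 ^ (m + 1)) := Nat.pow_le_pow_right (by norm_num) (by
              exact Nat.mul_le_mul_right _ (Nat.le_succ k))
      · intro ψ hψ
        simp only [List.mem_map, Prod.exists, List.mem_product] at hψ
        obtain ⟨a, b, ⟨ha, hb⟩, rfl⟩ := hψ
        simp only [size, depth]
        have h1 : a.size ≤ 2 ^ m * 2 ^ (max p.depth q.depth + 1 - (k + 1)) := by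
          refine le_trans (h13 a ha)
            (Nat.mul_le_mul_left _ (Nat.pow_le_pow_right (by norm_num) ?_))
          have := le_max_left p.depth q.depth
          omega
        have h2 : b.size ≤ 2 ^ m * 2 ^ (max p.depth q.depth + 1 - (k + 1)) := by
          refine le_trans (h23 b hb)
            (Nat.mul_le_mul_left _ (Nat.pow_le_pow_right (by norm_num) ?_))
          have := le_max_right p.depth q.depth
          omega
        rw [pow_succ]
        linarith

/-! ### Counting -/

/-- One step of the stack machine. -/
def step (st : List ((ι → Bool) → Bool)) : Option (Bool ⊕ (ι × Bool)) →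
    List ((ι → Bool) → Bool)
  | none => st
  | some (Sum.inr (i, b)) => (fun x => x i == b) :: st
  | some (Sum.inl true) => match st with
    | q :: p :: st' => (fun x => p x && q x) :: st'
    | st' => st'
  | some (Sum.inl false) => match st with
    | q :: p :: st' => (fun x => p x || q x) :: st'
    | st' => st'

/-- Reverse Polish notation. -/
def rpn : Fml ι → List (Option (Bool ⊕ (ι × Bool)))
  | lit i b => [some (Sum.inr (i, b))]
  | and p q => rpn p ++ rpn q ++ [some (Sum.inl true)]
  | or p q => rpn p ++ rpn q ++ [some (Sum.inl false)]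

lemma foldl_rpn (φ : Fml ι) (st : List ((ι → Bool) → Bool)) :
    (rpn φ).foldl step st = (fun x => φ.eval x) :: st := by
  induction φ generalizing st with
  | lit i b => rfl
  | and p q hp hq =>
    simp only [rpn, List.foldl_append, hp, hq]
    rfl
  | or p q hp hq =>
    simp only [rpn, List.foldl_append, hp, hq]
    rfl

lemma length_rpn (φ : Fml ι) : (rpn φ).length + 1 = 2 * φ.size := by
  induction φ with
  | lit i b => simp [rpn, size]
  | and p q hp hq => simp only [rpn, size, List.length_append, List.length_singleton]; omega
  | or p q hp hq => simp only [rpn, size, List.length_append, List.length_singleton]; omega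

lemma foldl_replicate (l : ℕ) (st : List ((ι → Bool) → Bool)) :
    (List.replicate l (none : Option (Bool ⊕ (ι × Bool)))).foldl step st = st := by
  induction l with
  | zero => rfl
  | succ l ih => rw [List.replicate_succ, List.foldl_cons]; exact ih

open Classical in
/-- The functions computed by formulas of size at most `s` form a set of size at most
`(2 |ι| + 3) ^ (2 s)`. -/
theorem exists_finset [Fintype ι] (s : ℕ) :
    ∃ S : Finset ((ι → Bool) → Bool), S.card ≤ (2 * Fintype.card ι + 3) ^ (2 * s) ∧
      ∀ φ : Fml ι, φ.size ≤ s → (fun x => φ.eval x) ∈ S := by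
  let dec : (Fin (2 * s) → Option (Bool ⊕ (ι × Bool))) → ((ι → Bool) → Bool) :=
    fun w => ((List.ofFn w).foldl step []).headD (fun _ => false)
  refine ⟨Finset.univ.image dec, ?_, ?_⟩
  · refine le_trans Finset.card_image_le ?_
    rw [Finset.card_univ, Fintype.card_fun, Fintype.card_fin, Fintype.card_option,
      Fintype.card_sum, Fintype.card_prod, Fintype.card_bool]
    apply le_of_eq
    congr 1
    ring
  · intro φ hφ
    rw [Finset.mem_image]
    have hlen : ((rpn φ) ++ List.replicate (2 * s - (rpn φ).length) none).length = 2 * s := by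
      have := length_rpn φ
      rw [List.length_append, List.length_replicate]
      omega
    refine ⟨fun i => ((rpn φ) ++ List.replicate (2 * s - (rpn φ).length) none).get
      (Fin.cast hlen.symm i), Finset.mem_univ _, ?_⟩
    have h1 : List.ofFn (fun i => ((rpn φ) ++ List.replicate (2 * s - (rpn φ).length) none).get
      (Fin.cast hlen.symm i)) = (rpn φ) ++ List.replicate (2 * s - (rpn φ).length) none := by
      apply List.ext_get
      · rw [List.length_ofFn, hlen]
      · intro i h1 h2
        simp
    simp only [dec]
    rw [h1, List.foldl_append, foldl_rpn, foldl_replicate]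
    rfl

end Fml

end MP979
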