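import Mathlib

/-!
# MP_979eef_lc: structure of dense sets of tuples

`D` is a set of tuples `x : ι → V` of density at least `2 ^ (-Δ)`.  We find a subset `D'` of `D`
and a set `R` of free coordinates such that on `D'` every other coordinate is constant or a copy of
a coordinate of `R`, and such that no value of a free coordinate and no coincidence of two free
coordinates has probability larger than `1 / B` in `D'`.
-/

namespace MP979

open Finset Classical

variable {ι V : Type} [Fintype ι] [Fintype V]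

/-- On `D` every coordinate is a copy of a coordinate in `R` or constant. -/
def Ctrl (D : Finset (ι → V)) (R : Finset ι) : Prop :=
  ∀ i, (∃ j ∈ R, ∀ x ∈ D, x i = x j) ∨ (∃ v, ∀ x ∈ D, x i = v)

omit [Fintype ι] in
lemma Ctrl.card_le {D : Finset (ι → V)} {R : Finset ι} (h : Ctrl D R) :
    D.card ≤ Fintype.card V ^ R.card := by
  have h1 : D.card ≤ (Finset.univ : Finset (R → V)).card := by
    apply Finset.card_le_card_of_injOn (fun x => fun j : R => x j)
    · intro x _
      exact Finset.mem_coe.2 (Finset.mem_univ _)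
    · intro x hx y hy hxy
      funext i
      rcases h i with ⟨j, hj, hij⟩ | ⟨v, hv⟩
      · rw [hij x hx, hij y hy]
        exact congrFun hxy ⟨j, hj⟩
      · rw [hv x hx, hv y hy]
  rw [Finset.card_univ, Fintype.card_fun, Fintype.card_coe] at h1
  exact h1

theorem exists_struct (D : Finset (ι → V)) (B e Δ : ℕ) (hB : 1 ≤ B)
    (hV : Fintype.card V = B * 2 ^ e)
    (hD : Fintype.card V ^ Fintype.card ι ≤ 2 ^ Δ * D.card) :
    ∃ D' ⊆ D, ∃ R : Finset ι, Ctrl D' R ∧ D'.Nonempty ∧
      (∀ j ∈ R, ∀ v, (D'.filter (fun x => x j = v)).card * B ≤ D'.card) ∧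
      (∀ i ∈ R, ∀ j ∈ R, i ≠ j → (D'.filter (fun x => x i = x j)).card * B ≤ D'.card) ∧
      e * (Fintype.card ι - R.card) ≤ Δ := by
  have hVpos : 1 ≤ Fintype.card V := by
    rw [hV]
    exact Nat.mul_pos hB (Nat.pow_pos (by norm_num))
  -- the maximal pair
  let T : Finset (Finset (ι → V) × Finset ι) := univ.filter (fun p => p.1 ⊆ D ∧ Ctrl p.1 p.2)
  have hT : (D, (univ : Finset ι)) ∈ T := by
    simp only [T, mem_filter, mem_univ, true_and]
    exact ⟨Finset.Subset.refl _, fun i => Or.inl ⟨i, mem_univ i, fun x _ => rfl⟩⟩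
  obtain ⟨⟨D', R⟩, hDR, hmax⟩ := Finset.exists_max_image T
    (fun p => p.1.card * B ^ (Fintype.card ι - p.2.card)) ⟨_, hT⟩
  simp only [T, mem_filter, mem_univ, true_and] at hDR
  obtain ⟨hsub, hctrl⟩ := hDR
  have hRle : R.card ≤ Fintype.card ι := Finset.card_le_univ R
  have h0 := hmax _ hT
  simp only [Finset.card_univ, Nat.sub_self, pow_zero, mul_one] at h0
  have hDpos : 0 < D.card := by
    by_contra hcon
    have : D.card = 0 := by omega
    rw [this, mul_zero] at hD
    have h2 : 0 < Fintype.card V ^ Fintype.card ι := Nat.pow_pos hVpos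
    omega
  have hD'pos : 0 < D'.card := by
    by_contra hcon
    have : D'.card = 0 := by omega
    rw [this, zero_mul] at h0
    omega
  have hstep : ∀ (D'' : Finset (ι → V)) (j : ι), j ∈ R → D'' ⊆ D' → Ctrl D'' (R.erase j) →
      D''.card * B ≤ D'.card := by
    intro D'' j hj hs hc
    have h1 := hmax (D'', R.erase j) (by
      simp only [T, mem_filter, mem_univ, true_and]
      exact ⟨hs.trans hsub, hc⟩)
    simp only [Finset.card_erase_of_mem hj] at h1
    have hRpos : 0 < R.card := Finset.card_pos.2 ⟨j, hj⟩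
    have h2 : Fintype.card ι - (R.card - 1) = (Fintype.card ι - R.card) + 1 := by omega
    rw [h2, pow_succ] at h1
    have h3 : 0 < B ^ (Fintype.card ι - R.card) := Nat.pow_pos hB
    refine Nat.le_of_mul_le_mul_right ?_ h3
    calc D''.card * B * B ^ (Fintype.card ι - R.card)
        = D''.card * (B ^ (Fintype.card ι - R.card) * B) := by ring
      _ ≤ _ := h1
  refine ⟨D', hsub, R, hctrl, Finset.card_pos.1 hD'pos, ?_, ?_, ?_⟩
  · intro j hj v
    apply hstep _ j hj (Finset.filter_subset _ _)
    intro i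
    rcases hctrl i with ⟨l, hl, hil⟩ | ⟨w, hw⟩
    · by_cases hlj : l = j
      · right
        refine ⟨v, fun x hx => ?_⟩
        rw [mem_filter] at hx
        rw [hil x hx.1, hlj, hx.2]
      · left
        refine ⟨l, Finset.mem_erase.2 ⟨hlj, hl⟩, fun x hx => ?_⟩
        rw [mem_filter] at hx
        exact hil x hx.1
    · right
      refine ⟨w, fun x hx => ?_⟩
      rw [mem_filter] at hx
      exact hw x hx.1
  · intro i hi j hj hij
    apply hstep _ j hj (Finset.filter_subset _ _)
    intro l
    rcases hctrl l with ⟨a, ha, hla⟩ | ⟨w, hw⟩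
    · left
      by_cases haj : a = j
      · refine ⟨i, Finset.mem_erase.2 ⟨hij, hi⟩, fun x hx => ?_⟩
        rw [mem_filter] at hx
        rw [hla x hx.1, haj, hx.2]
      · refine ⟨a, Finset.mem_erase.2 ⟨haj, ha⟩, fun x hx => ?_⟩
        rw [mem_filter] at hx
        exact hla x hx.1
    · right
      refine ⟨w, fun x hx => ?_⟩
      rw [mem_filter] at hx
      exact hw x hx.1
  · have h1 := hctrl.card_le
    have h2 : Fintype.card V ^ R.card * Fintype.card V ^ (Fintype.card ι - R.card) ≤
        Fintype.card V ^ R.card * (2 ^ Δ * B ^ (Fintype.card ι - R.card)) := by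
      rw [← pow_add, Nat.add_sub_cancel' hRle]
      calc Fintype.card V ^ Fintype.card ι ≤ 2 ^ Δ * D.card := hD
        _ ≤ 2 ^ Δ * (D'.card * B ^ (Fintype.card ι - R.card)) := Nat.mul_le_mul_left _ h0
        _ ≤ 2 ^ Δ * (Fintype.card V ^ R.card * B ^ (Fintype.card ι - R.card)) :=
            Nat.mul_le_mul_left _ (Nat.mul_le_mul_right _ h1)
        _ = _ := by ring
    have h3 := Nat.le_of_mul_le_mul_left h2 (Nat.pow_pos hVpos)
    rw [hV, mul_pow, mul_comm (2 ^ Δ)] at h3
    have h4 := Nat.le_of_mul_le_mul_left h3 (Nat.pow_pos hB)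
    rw [← pow_mul] at h4
    exact (Nat.pow_le_pow_iff_right (by norm_num)).1 h4

omit [Fintype V] in
/-- A tuple of `D'` whose free coordinates are distinct and avoid a small set `U`. -/
theorem exists_avoid (D' : Finset (ι → V)) (R : Finset ι) (B : ℕ) (hne : D'.Nonempty)
    (h1 : ∀ j ∈ R, ∀ v, (D'.filter (fun x => x j = v)).card * B ≤ D'.card)
    (h2 : ∀ i ∈ R, ∀ j ∈ R, i ≠ j → (D'.filter (fun x => x i = x j)).card * B ≤ D'.card)
    (U : Finset V) (hU : R.card * U.card + R.card * R.card < B) :
    ∃ x ∈ D', (∀ j ∈ R, x j ∉ U) ∧ ∀ i ∈ R, ∀ j ∈ R, x i = x j → i = j := by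
  by_contra hcon
  push Not at hcon
  have hsub : D' ⊆ (R ×ˢ U).biUnion (fun p => D'.filter (fun x => x p.1 = p.2)) ∪
      R.offDiag.biUnion (fun p => D'.filter (fun x => x p.1 = x p.2)) := by
    intro x hx
    rw [mem_union, mem_biUnion, mem_biUnion]
    by_cases hc : ∀ j ∈ R, x j ∉ U
    · right
      obtain ⟨i, hi, j, hj, hij, hne⟩ := hcon x hx hc
      exact ⟨(i, j), Finset.mem_offDiag.2 ⟨hi, hj, hne⟩, mem_filter.2 ⟨hx, hij⟩⟩
    · left
      push Not at hc
      obtain ⟨j, hj, hjU⟩ := hc
      exact ⟨(j, x j), Finset.mem_product.2 ⟨hj, hjU⟩, mem_filter.2 ⟨hx, rfl⟩⟩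
  have hcard : D'.card * B ≤ (R.card * U.card + R.card * R.card) * D'.card := by
    calc D'.card * B ≤ ((R ×ˢ U).biUnion (fun p => D'.filter (fun x => x p.1 = p.2)) ∪
      R.offDiag.biUnion (fun p => D'.filter (fun x => x p.1 = x p.2))).card * B :=
          Nat.mul_le_mul_right _ (Finset.card_le_card hsub)
      _ ≤ (((R ×ˢ U).biUnion (fun p => D'.filter (fun x => x p.1 = p.2))).card +
          (R.offDiag.biUnion (fun p => D'.filter (fun x => x p.1 = x p.2))).card) * B :=
          Nat.mul_le_mul_right _ (Finset.card_union_le _ _)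
      _ ≤ ((∑ p ∈ R ×ˢ U, (D'.filter (fun x => x p.1 = p.2)).card) +
          ∑ p ∈ R.offDiag, (D'.filter (fun x => x p.1 = x p.2)).card) * B :=
          Nat.mul_le_mul_right _ (Nat.add_le_add Finset.card_biUnion_le Finset.card_biUnion_le)
      _ = (∑ p ∈ R ×ˢ U, (D'.filter (fun x => x p.1 = p.2)).card * B) +
          ∑ p ∈ R.offDiag, (D'.filter (fun x => x p.1 = x p.2)).card * B := by
          rw [add_mul, Finset.sum_mul, Finset.sum_mul]
      _ ≤ (∑ _p ∈ R ×ˢ U, D'.card) + ∑ _p ∈ R.offDiag, D'.card := by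
          apply Nat.add_le_add
          · apply Finset.sum_le_sum
            intro p hp
            exact h1 p.1 (Finset.mem_product.1 hp).1 p.2
          · apply Finset.sum_le_sum
            intro p hp
            rw [Finset.mem_offDiag] at hp
            exact h2 p.1 hp.1 p.2 hp.2.1 hp.2.2
      _ = (R.card * U.card + (R.card * R.card - R.card)) * D'.card := by
          rw [Finset.sum_const, Finset.sum_const, Finset.card_product, Finset.offDiag_card,
            smul_eq_mul, smul_eq_mul, ← add_mul]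
      _ ≤ _ := Nat.mul_le_mul_right _ (by omega)
  have hpos : 0 < D'.card := Finset.card_pos.2 hne
  rw [mul_comm] at hcard
  have := Nat.le_of_mul_le_mul_right hcard hpos
  omega

end MP979
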