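import Mathlib
import Pool.Agent.Lib.MP_979eef_lc.Struct

/-!
# MP_979eef_lc: few inner functions `g` keep a fixed dense set inside a fibre of `f ◇ g`
-/

namespace MP979

open Finset Classical

variable {V : Type} [Fintype V]

/-- The normalised number of `g` that agree with `h` on `U` and satisfy `Q`. -/
noncomputable def mu (Q : (V → Bool) → Prop) (U : Finset V) (h : V → Bool) : ℝ :=
  ((univ.filter (fun g : V → Bool => (∀ v ∈ U, g v = h v) ∧ Q g)).card : ℝ) * 2 ^ U.card

lemma mu_nonneg (Q : (V → Bool) → Prop) (U : Finset V) (h : V → Bool) : 0 ≤ mu Q U h := by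
  unfold mu
  positivity

lemma mu_congr (Q : (V → Bool) → Prop) (U : Finset V) (h h' : V → Bool)
    (hh : ∀ v ∈ U, h v = h' v) : mu Q U h = mu Q U h' := by
  unfold mu
  congr 3
  apply Finset.filter_congr
  intro g _
  constructor
  · rintro ⟨h1, h2⟩
    exact ⟨fun v hv => (h1 v hv).trans (hh v hv), h2⟩
  · rintro ⟨h1, h2⟩
    exact ⟨fun v hv => (h1 v hv).trans (hh v hv).symm, h2⟩

lemma mu_eq_zero (Q : (V → Bool) → Prop) (U : Finset V) (h : V → Bool)
    (hh : ∀ g : V → Bool, (∀ v ∈ U, g v = h v) → ¬ Q g) : mu Q U h = 0 := by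
  unfold mu
  have : (univ.filter (fun g : V → Bool => (∀ v ∈ U, g v = h v) ∧ Q g)) = ∅ := by
    rw [Finset.filter_eq_empty_iff]
    rintro g - ⟨hg1, hg2⟩
    exact hh g hg1 hg2
  rw [this]
  simp

lemma mu_split (Q : (V → Bool) → Prop) (U : Finset V) (h : V → Bool) (v : V) (hv : v ∉ U)
    (b : Bool) :
    mu Q U h = (mu Q (insert v U) (Function.update h v b) +
      mu Q (insert v U) (Function.update h v (!b))) / 2 := by
  unfold mu
  rw [Finset.card_insert_of_notMem hv]
  have h1 : ∀ c : Bool, (univ.filter (fun g : V → Bool =>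
      (∀ w ∈ insert v U, g w = Function.update h v c w) ∧ Q g)) =
      (univ.filter (fun g : V → Bool => (∀ w ∈ U, g w = h w) ∧ Q g)).filter
        (fun g => g v = c) := by
    intro c
    ext g
    simp only [mem_filter, mem_univ, true_and]
    constructor
    · rintro ⟨h2, h3⟩
      refine ⟨⟨fun w hw => ?_, h3⟩, ?_⟩
      · rw [h2 w (Finset.mem_insert_of_mem hw)]
        exact Function.update_of_ne (fun hwv : w = v => hv (hwv ▸ hw)) _ _
      · rw [h2 v (Finset.mem_insert_self v U)]
        exact Function.update_self _ _ _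
    · rintro ⟨⟨h2, h3⟩, h4⟩
      refine ⟨fun w hw => ?_, h3⟩
      rcases Finset.mem_insert.1 hw with rfl | hw'
      · rw [h4, Function.update_self]
      · rw [h2 w hw', Function.update_of_ne (fun hwv : w = v => hv (hwv ▸ hw'))]
  rw [h1 b, h1 (!b)]
  have h2 : (univ.filter (fun g : V → Bool => (∀ w ∈ U, g w = h w) ∧ Q g)).filter
      (fun g => g v = !b) = (univ.filter (fun g : V → Bool => (∀ w ∈ U, g w = h w) ∧ Q g)).filter
      (fun g => ¬ g v = b) := by
    apply Finset.filter_congr
    intro g _
    cases g v <;> cases b <;> simp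
  rw [h2]
  have h3 := Finset.card_filter_add_card_filter_not
    (s := univ.filter (fun g : V → Bool => (∀ w ∈ U, g w = h w) ∧ Q g)) (fun g => g v = b)
  rw [← h3]
  push_cast
  ring

lemma mu_expose (Q : (V → Bool) → Prop) (A : ℝ) (S : Finset V) :
    ∀ U : Finset V, (∀ h, mu Q (U ∪ S) h ≤ A) → ∀ h, mu Q U h ≤ A := by
  induction S using Finset.induction_on with
  | empty =>
    intro U hU h
    have := hU h
    rwa [Finset.union_empty] at this
  | insert v S _ ih =>
    intro U hU
    apply ih U
    by_cases hv : v ∈ U ∪ S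
    · intro h
      have := hU h
      rwa [Finset.union_insert, Finset.insert_eq_of_mem hv] at this
    · intro h
      rw [mu_split Q (U ∪ S) h v hv true]
      rw [Finset.union_insert] at hU
      have h1 := hU (Function.update h v true)
      have h2 := hU (Function.update h v (!true))
      linarith

lemma mu_zero (Q : (V → Bool) → Prop) (A : ℝ) (S : Finset V) :
    ∀ U : Finset V, Disjoint U S → (∀ h, mu Q (U ∪ S) h ≤ A) → ∀ h hs : V → Bool,
      (∀ v ∈ U, hs v = h v) → mu Q (U ∪ S) hs = 0 →
      mu Q U h ≤ (1 - 1 / 2 ^ S.card) * A := by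
  induction S using Finset.induction_on with
  | empty =>
    intro U _ _ h hs hag h0
    rw [Finset.union_empty] at h0
    rw [mu_congr Q U h hs (fun v hv => (hag v hv).symm), h0]
    simp
  | insert v S hvS ih =>
    intro U hdisj hU h hs hag h0
    have hvU : v ∉ U := fun hv =>
      (Finset.disjoint_left.1 hdisj hv) (Finset.mem_insert_self v S)
    have hun : U ∪ insert v S = insert v U ∪ S := by
      rw [Finset.union_insert, Finset.insert_union]
    rw [hun] at hU h0
    rw [mu_split Q U h v hvU (hs v)]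
    have hdisj' : Disjoint (insert v U) S := by
      rw [Finset.disjoint_insert_left]
      exact ⟨hvS, Finset.disjoint_of_subset_right (Finset.subset_insert v S) hdisj⟩
    have h1 := ih (insert v U) hdisj' hU (Function.update h v (hs v)) hs (by
      intro w hw
      rcases Finset.mem_insert.1 hw with rfl | hw'
      · rw [Function.update_self]
      · rw [Function.update_of_ne (fun hwv : w = v => hvU (hwv ▸ hw'))]
        exact hag w hw') h0
    have h2 := mu_expose Q A S (insert v U) hU (Function.update h v (!(hs v)))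
    rw [Finset.card_insert_of_notMem hvS]
    have h3 : (1 - 1 / 2 ^ (S.card + 1) : ℝ) * A = ((1 - 1 / 2 ^ S.card) * A + A) / 2 := by
      rw [pow_succ]
      field_simp
      ring
    rw [h3]
    linarith

lemma mu_le (Q : (V → Bool) → Prop) (U : Finset V) (h : V → Bool) :
    mu Q U h ≤ 2 ^ Fintype.card V := by
  apply mu_expose Q _ univ U
  intro h'
  unfold mu
  have h1 : U ∪ univ = (univ : Finset V) := by ext; simp
  rw [h1, Finset.card_univ]
  have h2 : (univ.filter (fun g : V → Bool => (∀ v ∈ (univ : Finset V), g v = h' v) ∧ Q g)).card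
      ≤ 1 := by
    rw [Finset.card_le_one]
    intro a ha b hb
    simp only [mem_filter, mem_univ, true_and, forall_true_left] at ha hb
    funext v
    rw [ha.1 v, hb.1 v]
  have h3 : ((univ.filter (fun g : V → Bool =>
      (∀ v ∈ (univ : Finset V), g v = h' v) ∧ Q g)).card : ℝ) ≤ 1 := by exact_mod_cast h2
  have h4 : (0 : ℝ) ≤ 2 ^ Fintype.card V := by positivity
  nlinarith

/-- `f` is non-constant on every `r`-dimensional subcube, also after identifying coordinates. -/
def Robust {ι : Type} (r : ℕ) (f : (ι → Bool) → Bool) : Prop :=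
  ∀ (R : Finset ι) (τ : ι → ι ⊕ Bool), R.card = r → (∀ j ∈ R, τ j = Sum.inl j) →
    ∀ b, ∃ y : ι → Bool, f (fun i => Sum.elim y id (τ i)) = b

/-- The peeling lemma. -/
theorem peel {ι : Type} [Fintype ι] (f : (ι → Bool) → Bool) (r : ℕ) (hf : Robust r f)
    (b : Bool) (D : Finset (ι → V)) (R W : Finset _) (B : ℕ) (hr : r ≤ R.card)
    (hW : ∀ x ∈ D, ∀ i, x i ∈ W ∪ R.image x)
    (hav : ∀ U : Finset V, R.card * U.card + R.card * R.card < B →
      ∃ x ∈ D, (∀ j ∈ R, x j ∉ U) ∧ ∀ i ∈ R, ∀ j ∈ R, x i = x j → i = j) (k : ℕ) :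
    ∀ U : Finset V, W ⊆ U → R.card * (U.card + R.card * k) < B → ∀ h,
      mu (fun g => ∀ x ∈ D, f (fun i => g (x i)) = b) U h ≤
        (1 - 1 / 2 ^ r) ^ k * 2 ^ Fintype.card V := by
  induction k with
  | zero =>
    intro U _ _ h
    rw [pow_zero, one_mul]
    exact mu_le _ _ _
  | succ k ih =>
    intro U hWU hB h
    obtain ⟨R₀, hR₀, hR₀c⟩ := Finset.exists_subset_card_eq hr
    have hB1 : R.card * U.card + R.card * R.card < B := by
      refine lt_of_le_of_lt ?_ hB
      rw [← mul_add]
      apply Nat.mul_le_mul_left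
      nlinarith
    obtain ⟨x, hx, hxU, hxinj⟩ := hav U hB1
    set Q : (V → Bool) → Prop := fun g => ∀ x ∈ D, f (fun i => g (x i)) = b with hQ
    set U1 : Finset V := U ∪ (R \ R₀).image x with hU1
    have hunion : U1 ∪ R₀.image x = U ∪ R.image x := by
      rw [hU1, Finset.union_assoc, ← Finset.image_union, Finset.sdiff_union_of_subset hR₀]
    have hcard : (U ∪ R.image x).card ≤ U.card + R.card :=
      le_trans (Finset.card_union_le _ _) (Nat.add_le_add_left Finset.card_image_le _)
    have hIH : ∀ h', mu Q (U1 ∪ R₀.image x) h' ≤ (1 - 1 / 2 ^ r) ^ k * 2 ^ Fintype.card V := by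
      rw [hunion]
      apply ih
      · exact hWU.trans Finset.subset_union_left
      · refine lt_of_le_of_lt ?_ hB
        apply Nat.mul_le_mul_left
        nlinarith
    have hc0 : (0 : ℝ) ≤ 1 - 1 / 2 ^ r := by
      have : (1 : ℝ) / 2 ^ r ≤ 1 := by
        rw [div_le_one (by positivity)]
        exact one_le_pow₀ (by norm_num)
      linarith
    apply mu_expose Q _ ((R \ R₀).image x) U
    intro h1
    rw [← hU1]
    have hdisj : Disjoint U1 (R₀.image x) := by
      rw [Finset.disjoint_left]
      intro v hv hv'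
      rw [Finset.mem_image] at hv'
      obtain ⟨j, hj, rfl⟩ := hv'
      rw [hU1, Finset.mem_union, Finset.mem_image] at hv
      rcases hv with hv | ⟨i, hi, hij⟩
      · exact hxU j (hR₀ hj) hv
      · rw [Finset.mem_sdiff] at hi
        have := hxinj i hi.1 j (hR₀ hj) hij
        exact hi.2 (this ▸ hj)
    -- the bad extension
    let τ : ι → ι ⊕ Bool := fun i =>
      if hi : ∃ j ∈ R₀, x i = x j then Sum.inl hi.choose else Sum.inr (h1 (x i))
    have hτ : ∀ j ∈ R₀, τ j = Sum.inl j := by
      intro j hj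
      have hi : ∃ l ∈ R₀, x j = x l := ⟨j, hj, rfl⟩
      simp only [τ, dif_pos hi]
      congr 1
      exact (hxinj j (hR₀ hj) _ (hR₀ hi.choose_spec.1) hi.choose_spec.2).symm
    obtain ⟨y, hy⟩ := hf R₀ τ hR₀c hτ (!b)
    let hs : V → Bool := fun v =>
      if hv : ∃ j ∈ R₀, v = x j then y hv.choose else h1 v
    have hs1 : ∀ i, hs (x i) = Sum.elim y id (τ i) := by
      intro i
      by_cases hi : ∃ j ∈ R₀, x i = x j
      · simp only [hs, τ, dif_pos hi, Sum.elim_inl]
      · simp only [hs, τ, dif_neg hi, Sum.elim_inr, id]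
    have hcardim : (R₀.image x).card = r := by
      rw [Finset.card_image_of_injOn, hR₀c]
      intro i hi j hj hij
      exact hxinj i (hR₀ hi) j (hR₀ hj) hij
    have key := mu_zero Q _ (R₀.image x) U1 hdisj hIH h1 hs (by
      intro v hv
      have hn : ¬ ∃ j ∈ R₀, v = x j := by
        rintro ⟨j, hj, rfl⟩
        exact Finset.disjoint_left.1 hdisj hv (Finset.mem_image_of_mem x hj)
      simp only [hs, dif_neg hn]) (by
      apply mu_eq_zero
      intro g hg1 hg2
      have h3 := hg2 x hx
      have h4 : (fun i => g (x i)) = fun i => Sum.elim y id (τ i) := by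
        funext i
        rw [← hs1 i]
        apply hg1
        rw [hunion]
        rcases Finset.mem_union.1 (hW x hx i) with h5 | h5
        · exact Finset.mem_union_left _ (hWU h5)
        · exact Finset.mem_union_right _ h5
      rw [h4, hy] at h3
      cases b <;> simp at h3)
    rw [hcardim] at key
    refine le_trans key (le_of_eq ?_)
    rw [pow_succ]
    ring

/-- For a fixed dense set `D` few `g` keep `D` inside the fibre of `f ◇ g` over `b`. -/
theorem few {ι : Type} [Fintype ι] (f : (ι → Bool) → Bool) (r : ℕ) (hf : Robust r f)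
    (b : Bool) (D : Finset (ι → V)) (B e Δ K : ℕ)
    (hV : Fintype.card V = B * 2 ^ e) (hr : r ≤ Fintype.card ι) (he : 1 ≤ e)
    (hΔ : Δ ≤ e * (Fintype.card ι - r))
    (hD : Fintype.card V ^ Fintype.card ι ≤ 2 ^ Δ * D.card)
    (hK : Fintype.card ι ^ 2 * (K + 1) < B) :
    ((univ.filter (fun g : V → Bool => ∀ x ∈ D, f (fun i => g (x i)) = b)).card : ℝ) ≤
      (1 - 1 / 2 ^ r) ^ K * 2 ^ Fintype.card V := by
  have hB : 1 ≤ B := by
    have := Nat.zero_le (Fintype.card ι ^ 2 * (K + 1))
    omega
  obtain ⟨D', hD', R, hctrl, hne, h1, h2, h3⟩ := exists_struct D B e Δ hB hV hD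
  have hRle : R.card ≤ Fintype.card ι := Finset.card_le_univ R
  have hRr : r ≤ R.card := by
    have h4 : e * (Fintype.card ι - R.card) ≤ e * (Fintype.card ι - r) := h3.trans hΔ
    have h5 := Nat.le_of_mul_le_mul_left h4 he
    omega
  -- the fixed values
  let W : Finset V := univ.filter (fun v => ∃ i, ∀ x ∈ D', x i = v)
  have hWcard : W.card ≤ Fintype.card ι := by
    obtain ⟨x₀, hx₀⟩ := hne
    have : W ⊆ (univ : Finset ι).image x₀ := by
      intro v hv
      simp only [W, mem_filter, mem_univ, true_and] at hv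
      obtain ⟨i, hi⟩ := hv
      exact Finset.mem_image.2 ⟨i, mem_univ _, hi x₀ hx₀⟩
    exact le_trans (Finset.card_le_card this) Finset.card_image_le
  have hWc : ∀ x ∈ D', ∀ i, x i ∈ W ∪ R.image x := by
    intro x hx i
    rw [Finset.mem_union]
    rcases hctrl i with ⟨j, hj, hij⟩ | ⟨v, hv⟩
    · right
      rw [hij x hx]
      exact Finset.mem_image_of_mem x hj
    · left
      simp only [W, mem_filter, mem_univ, true_and]
      exact ⟨i, fun y hy => by rw [hv y hy, hv x hx]⟩
  have hpeel := peel f r hf b D' R W B hRr hWc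
    (fun U hU => exists_avoid D' R B hne h1 h2 U hU) K W (Finset.Subset.refl _) (by
      refine lt_of_le_of_lt ?_ hK
      calc R.card * (W.card + R.card * K)
          ≤ Fintype.card ι * (Fintype.card ι + Fintype.card ι * K) :=
            Nat.mul_le_mul hRle (Nat.add_le_add hWcard (Nat.mul_le_mul_right _ hRle))
        _ = Fintype.card ι ^ 2 * (K + 1) := by ring)
  have h6 := mu_expose (fun g => ∀ x ∈ D', f (fun i => g (x i)) = b) _ W ∅ (by
    rw [Finset.empty_union]
    exact hpeel) (fun _ => false)
  refine le_trans ?_ h6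
  unfold mu
  simp only [Finset.card_empty, pow_zero, mul_one, Finset.notMem_empty, false_imp_iff,
    implies_true, true_and]
  have h7 : (univ.filter (fun g : V → Bool => ∀ x ∈ D, f (fun i => g (x i)) = b)) ⊆
      (univ.filter (fun g : V → Bool => ∀ x ∈ D', f (fun i => g (x i)) = b)) := by
    intro g hg
    simp only [mem_filter, mem_univ, true_and] at hg ⊢
    exact fun x hx => hg x (hD' hx)
  exact_mod_cast Finset.card_le_card h7

end MP979
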