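import Mathlib
import Pool.Agent.Lib.MP_979eef_lc.Peel
import Pool.Agent.Lib.MP_979eef_lc.Fml

/-!
# MP_979eef_lc: existence of the hard pair
-/

namespace MP979

open Finset Classical

lemma mu_true_card {V : Type} [Fintype V] (P : Finset V) (c : Bool) :
    (univ.filter (fun f : V → Bool => ∀ v ∈ P, f v = c)).card * 2 ^ P.card ≤
      2 ^ Fintype.card V := by
  have h := mu_le (fun _ : V → Bool => True) P (fun _ => c)
  unfold mu at h
  simp only [and_true] at h
  exact_mod_cast h

/-- A random outer function is robust. -/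
theorem robust_exists {ι : Type} [Fintype ι] (r : ℕ)
    (hr : 2 * (Fintype.card ι + 2) ^ Fintype.card ι < 2 ^ (2 ^ r)) :
    ∃ f : (ι → Bool) → Bool, Robust r f := by
  by_contra hcon
  push Not at hcon
  let T : Finset ((ι → ι ⊕ Bool) × Bool) := univ.filter
    (fun p => ∃ R : Finset ι, R.card = r ∧ ∀ j ∈ R, p.1 j = Sum.inl j)
  let P : ((ι → ι ⊕ Bool) × Bool) → Finset (ι → Bool) := fun p =>
    univ.image (fun y : ι → Bool => fun i => Sum.elim y id (p.1 i))
  let bad : ((ι → ι ⊕ Bool) × Bool) → Finset ((ι → Bool) → Bool) := fun p =>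
    univ.filter (fun f => ∀ v ∈ P p, f v = !p.2)
  have hbad : ∀ p ∈ T, (bad p).card * 2 ^ (2 ^ r) ≤ 2 ^ Fintype.card (ι → Bool) := by
    intro p hp
    simp only [T, mem_filter, mem_univ, true_and] at hp
    obtain ⟨R, hRc, hR⟩ := hp
    have h1 : 2 ^ r ≤ (P p).card := by
      have h2 : (univ : Finset (R → Bool)).card ≤ (P p).card := by
        apply Finset.card_le_card_of_surjOn (fun x => fun j : R => x j)
        intro z _
        refine ⟨fun i => Sum.elim (fun i => if h : i ∈ R then z ⟨i, h⟩ else false) id (p.1 i),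
          ?_, ?_⟩
        · exact Finset.mem_coe.2 (Finset.mem_image_of_mem _ (mem_univ _))
        · funext j
          simp only [hR j j.2, Sum.elim_inl, dif_pos j.2]
      rw [Finset.card_univ, Fintype.card_fun, Fintype.card_bool, Fintype.card_coe, hRc] at h2
      exact h2
    have h3 : (bad p).card * 2 ^ (P p).card ≤ 2 ^ Fintype.card (ι → Bool) := by
      have h30 := mu_true_card (P p) (!p.2)
      refine le_trans (le_of_eq ?_) h30
      refine congrArg (fun s : Finset ((ι → Bool) → Bool) => s.card * 2 ^ (P p).card) ?_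
      ext f
      simp only [bad, mem_filter, mem_univ, true_and]
    have h4 : 2 ^ (2 ^ r) ≤ 2 ^ (P p).card := Nat.pow_le_pow_right (by norm_num) h1
    generalize (bad p).card = a at h3 ⊢
    generalize Fintype.card (ι → Bool) = c at h3 ⊢
    generalize (P p).card = d at h3 h4 ⊢
    generalize 2 ^ 2 ^ r = u at h4 ⊢
    exact le_trans (Nat.mul_le_mul (le_refl a) h4) h3
  have hcover : (univ : Finset ((ι → Bool) → Bool)) ⊆ T.biUnion bad := by
    intro f _
    have h1 := hcon f
    unfold Robust at h1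
    push Not at h1
    obtain ⟨R, τ, hRc, hR, b, hb⟩ := h1
    rw [mem_biUnion]
    refine ⟨(τ, b), ?_, ?_⟩
    · simp only [T, mem_filter, mem_univ, true_and]
      exact ⟨R, hRc, hR⟩
    · simp only [bad, P, mem_filter, mem_univ, true_and, mem_image]
      rintro v ⟨y, rfl⟩
      have := hb y
      revert this
      cases b <;> simp
  have h1 : 2 ^ Fintype.card (ι → Bool) * 2 ^ (2 ^ r) ≤
      2 * (Fintype.card ι + 2) ^ Fintype.card ι * 2 ^ Fintype.card (ι → Bool) := by
    calc 2 ^ Fintype.card (ι → Bool) * 2 ^ (2 ^ r)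
        = (univ : Finset ((ι → Bool) → Bool)).card * 2 ^ (2 ^ r) := by
          rw [Finset.card_univ, Fintype.card_fun (α := ι → Bool) (β := Bool), Fintype.card_bool]
      _ ≤ (T.biUnion bad).card * 2 ^ (2 ^ r) :=
          Nat.mul_le_mul_right _ (Finset.card_le_card hcover)
      _ ≤ (∑ p ∈ T, (bad p).card) * 2 ^ (2 ^ r) :=
          Nat.mul_le_mul_right _ Finset.card_biUnion_le
      _ = ∑ p ∈ T, (bad p).card * 2 ^ (2 ^ r) := by rw [Finset.sum_mul]
      _ ≤ ∑ _p ∈ T, 2 ^ Fintype.card (ι → Bool) := Finset.sum_le_sum hbad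
      _ = T.card * 2 ^ Fintype.card (ι → Bool) := by rw [Finset.sum_const, smul_eq_mul]
      _ ≤ _ := by
          apply Nat.mul_le_mul_right
          refine le_trans (Finset.card_le_univ T) (le_of_eq ?_)
          rw [Fintype.card_prod, Fintype.card_fun, Fintype.card_sum, Fintype.card_bool, mul_comm]
  rw [mul_comm] at h1
  have h2 := Nat.le_of_mul_le_mul_right h1 (Nat.pow_pos (by norm_num))
  omega

/-- The number of balanced functions. -/
lemma card_balanced {V : Type} [Fintype V] (n : ℕ) (hn : 1 ≤ n) (hV : Fintype.card V = 2 ^ n) :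
    2 ^ Fintype.card V ≤ 2 ^ n * (univ.filter (fun g : V → Bool =>
      (univ.filter (fun v => g v = true)).card = 2 ^ (n - 1))).card := by
  have h1 : (powersetCard (2 ^ (n - 1)) (univ : Finset V)).card ≤
      (univ.filter (fun g : V → Bool =>
        (univ.filter (fun v => g v = true)).card = 2 ^ (n - 1))).card := by
    apply Finset.card_le_card_of_injOn (fun s => fun v => decide (v ∈ s))
    · intro s hs
      rw [Finset.mem_coe, mem_powersetCard] at hs
      simp only [coe_filter, mem_univ, true_and, Set.mem_ofPred_eq, decide_eq_true_eq]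
      rw [← hs.2]
      congr 1
      ext v
      simp
    · intro s _ t _ hst
      ext v
      have := congrFun hst v
      simpa using this
  rw [card_powersetCard, Finset.card_univ, hV] at h1
  have h2 := Nat.four_pow_le_two_mul_self_mul_centralBinom (2 ^ (n - 1)) (Nat.pow_pos (by norm_num))
  have h3 : 2 * 2 ^ (n - 1) = 2 ^ n := by
    rw [← pow_succ', Nat.sub_add_cancel hn]
  rw [Nat.centralBinom, h3] at h2
  have h4 : 4 ^ 2 ^ (n - 1) = 2 ^ Fintype.card V := by
    rw [hV, ← h3, pow_mul]
    norm_num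
  rw [h4] at h2
  exact h2.trans (Nat.mul_le_mul_left _ h1)

lemma pow_half (r : ℕ) : (1 - 1 / 2 ^ r : ℝ) ^ (2 ^ r) ≤ 1 / 2 := by
  have hpos : (0 : ℝ) < 2 ^ r := by positivity
  have h1 : (1 - 1 / 2 ^ r : ℝ) ≤ Real.exp (-(1 / 2 ^ r)) := by
    have := Real.add_one_le_exp (-(1 / 2 ^ r : ℝ))
    linarith
  have h0 : (0 : ℝ) ≤ 1 - 1 / 2 ^ r := by
    have : (1 : ℝ) / 2 ^ r ≤ 1 := by
      rw [div_le_one (by positivity)]
      exact one_le_pow₀ (by norm_num)
    linarith
  calc (1 - 1 / 2 ^ r : ℝ) ^ (2 ^ r) ≤ (Real.exp (-(1 / 2 ^ r))) ^ (2 ^ r) :=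
        pow_le_pow_left₀ h0 h1 _
    _ = Real.exp (-1) := by
        rw [← Real.exp_nat_mul]
        congr 1
        push_cast
        field_simp
    _ ≤ 1 / 2 := by
        rw [Real.exp_neg, one_div]
        apply inv_anti₀ (by norm_num)
        have := Real.add_one_le_exp (1 : ℝ)
        linarith

/-- The number of `X` in a fibre of `f ◇ g`, for balanced `g`. -/
lemma card_fibre {n : ℕ} (f g : (Fin n → Bool) → Bool) (b : Bool) (hf : ∃ y, f y = b)
    (hg : ∀ c, (univ.filter (fun v => g v = c)).card = 2 ^ (n - 1)) :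
    (2 ^ (n - 1)) ^ n ≤
      (univ.filter (fun X : Fin n → Fin n → Bool => f (fun i => g (X i)) = b)).card := by
  obtain ⟨y, hy⟩ := hf
  have h1 : (Fintype.piFinset (fun i : Fin n => univ.filter (fun v => g v = y i))).card =
      (2 ^ (n - 1)) ^ n := by
    rw [Fintype.card_piFinset]
    simp only [hg, Finset.prod_const, Finset.card_univ, Fintype.card_fin]
  rw [← h1]
  apply Finset.card_le_card
  intro X hX
  rw [Fintype.mem_piFinset] at hX
  simp only [mem_filter, mem_univ, true_and] at hX ⊢
  rw [← hy]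
  congr 1
  funext i
  exact hX i

end MP979
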