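import Mathlib
import Pool.Agent.Lib.MP_979eef_lc.Core

/-!
# MP_979eef_lc: the union bound and the hard pair
-/

namespace MP979

open Finset Classical

/-- The fibre over `b` of a function of `n * n` variables, as a set of tuples. -/
noncomputable def Dset (n : ℕ) (h : (Fin n × Fin n → Bool) → Bool) (b : Bool) :
    Finset (Fin n → Fin n → Bool) :=
  univ.filter (fun X => h (fun p => X p.1 p.2) = b)

lemma mem_Dset {n : ℕ} {h : (Fin n × Fin n → Bool) → Bool} {b : Bool}
    {X : Fin n → Fin n → Bool} : X ∈ Dset n h b ↔ h (fun p => X p.1 p.2) = b := by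
  simp [Dset]

/-- The inner functions `g` for which a small formula covers a large part of a fibre of
`f ◇ g`. -/
noncomputable def badE (n r e : ℕ) (f : (Fin n → Bool) → Bool) :
    Finset ((Fin n → Bool) → Bool) :=
  univ.filter (fun g => ∃ b, ∃ φ : Fml (Fin n × Fin n), n ^ 8 * φ.size ≤ 2 ^ (n - e) ∧
    (2 ^ n) ^ n ≤ 2 ^ (e * (n - r)) * (Dset n (fun x => φ.eval x) b).card ∧
    ∀ X ∈ Dset n (fun x => φ.eval x) b, f (fun i => g (X i)) = b)

theorem badE_card (n r e : ℕ) (f : (Fin n → Bool) → Bool) (hf : Robust r f)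
    (hr : 2 ^ r ≤ 4 * n ^ 2) (hrn : r ≤ n) (hn : 10 ≤ n) (hn2 : 2 * n ^ 2 + 3 ≤ 2 ^ n)
    (he : 1 ≤ e) (hen : e ≤ n) :
    (badE n r e f).card * (2 ^ n * (2 * n)) ≤ 2 ^ (2 ^ n) := by
  set s := 2 ^ (n - e) / n ^ 8 with hs
  have hn8 : 0 < n ^ 8 := by positivity
  have hsle : ∀ φ : Fml (Fin n × Fin n), n ^ 8 * φ.size ≤ 2 ^ (n - e) → φ.size ≤ s := by
    intro φ hφ
    rw [hs, Nat.le_div_iff_mul_le hn8, mul_comm]
    exact hφ
  rcases Nat.eq_zero_or_pos s with hs0 | hspos
  · have : badE n r e f = ∅ := by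
      unfold badE
      rw [Finset.filter_eq_empty_iff]
      rintro g - ⟨b, φ, h1, -⟩
      have h2 := hsle φ h1
      have h3 := φ.size_pos
      omega
    rw [this]
    simp
  · have hsB : n ^ 8 * s ≤ 2 ^ (n - e) := Nat.mul_div_le _ _
    obtain ⟨S, hScard, hS⟩ := Fml.exists_finset (ι := Fin n × Fin n) s
    have hcardι : Fintype.card (Fin n × Fin n) = n ^ 2 := by
      rw [Fintype.card_prod, Fintype.card_fin, sq]
    rw [hcardι] at hScard
    set K := 2 ^ r * (n ^ 3 * s) with hK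
    have hKB : n ^ 2 * (K + 1) < 2 ^ (n - e) := by
      refine lt_of_lt_of_le ?_ hsB
      have h1 : K ≤ 4 * n ^ 2 * (n ^ 3 * s) := Nat.mul_le_mul_right _ hr
      have h2 : n ^ 2 * (K + 1) ≤ 4 * n ^ 7 * s + n ^ 2 := by
        calc n ^ 2 * (K + 1) ≤ n ^ 2 * (4 * n ^ 2 * (n ^ 3 * s) + 1) :=
              Nat.mul_le_mul_left _ (Nat.add_le_add_right h1 1)
          _ = 4 * n ^ 7 * s + n ^ 2 := by ring
      have h3 : n ^ 2 ≤ n ^ 7 * s := by
        calc n ^ 2 = n ^ 2 * 1 := (mul_one _).symm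
          _ ≤ n ^ 7 * s := Nat.mul_le_mul (Nat.pow_le_pow_right (by omega) (by norm_num)) hspos
      have h4 : 0 < n ^ 7 * s := by positivity
      calc n ^ 2 * (K + 1) ≤ 4 * n ^ 7 * s + n ^ 2 := h2
        _ ≤ 5 * (n ^ 7 * s) := by linarith
        _ < 10 * (n ^ 7 * s) := by linarith
        _ ≤ n * (n ^ 7 * s) := Nat.mul_le_mul_right _ hn
        _ = n ^ 8 * s := by ring
    let T : Finset (Bool × ((Fin n × Fin n → Bool) → Bool)) :=
      ((univ : Finset Bool) ×ˢ S).filter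
        (fun p => (2 ^ n) ^ n ≤ 2 ^ (e * (n - r)) * (Dset n p.2 p.1).card)
    let F : Bool × ((Fin n × Fin n → Bool) → Bool) → Finset ((Fin n → Bool) → Bool) :=
      fun p => univ.filter (fun g => ∀ X ∈ Dset n p.2 p.1, f (fun i => g (X i)) = p.1)
    have hcover : badE n r e f ⊆ T.biUnion F := by
      intro g hg
      simp only [badE, mem_filter, mem_univ, true_and] at hg
      obtain ⟨b, φ, h1, h2, h3⟩ := hg
      rw [mem_biUnion]
      refine ⟨(b, fun x => φ.eval x), ?_, ?_⟩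
      · simp only [T, mem_filter, mem_product, mem_univ, true_and]
        exact ⟨hS φ (hsle φ h1), h2⟩
      · simp only [F, mem_filter, mem_univ, true_and]
        exact h3
    have hcardV : Fintype.card (Fin n → Bool) = 2 ^ n := by
      rw [Fintype.card_fun, Fintype.card_bool, Fintype.card_fin]
    have hF : ∀ p ∈ T, ((F p).card : ℝ) ≤ (1 / 2) ^ (n ^ 3 * s) * 2 ^ (2 ^ n) := by
      intro p hp
      simp only [T, mem_filter, mem_product, mem_univ, true_and] at hp
      have h1 : ((F p).card : ℝ) ≤ (1 - 1 / 2 ^ r) ^ K * 2 ^ (Fintype.card (Fin n → Bool)) := by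
        have h10 := few (V := Fin n → Bool) f r hf p.1 (Dset n p.2 p.1) (2 ^ (n - e)) e
          (e * (n - r)) K (by rw [hcardV, ← pow_add, Nat.sub_add_cancel hen])
          (by rw [Fintype.card_fin]; exact hrn) he (by rw [Fintype.card_fin])
          (by rw [hcardV, Fintype.card_fin]; exact hp.2)
          (by rw [Fintype.card_fin]; exact hKB)
        refine le_trans (le_of_eq ?_) h10
        refine congrArg (fun s : Finset ((Fin n → Bool) → Bool) => (s.card : ℝ)) ?_
        ext g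
        simp only [F, mem_filter, mem_univ, true_and]
      rw [hcardV] at h1
      have h0 : (0 : ℝ) ≤ 1 - 1 / 2 ^ r := by
        have : (1 : ℝ) / 2 ^ r ≤ 1 := by
          rw [div_le_one (by positivity)]
          exact one_le_pow₀ (by norm_num)
        linarith
      have h2 : (1 - 1 / 2 ^ r : ℝ) ^ K ≤ (1 / 2) ^ (n ^ 3 * s) := by
        rw [hK, pow_mul]
        exact pow_le_pow_left₀ (pow_nonneg h0 _) (pow_half r) _
      have h3 : (0 : ℝ) ≤ 2 ^ (2 ^ n) := by positivity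
      calc ((F p).card : ℝ) ≤ (1 - 1 / 2 ^ r) ^ K * 2 ^ 2 ^ n := h1
        _ ≤ _ := mul_le_mul_of_nonneg_right h2 h3
    have hTcard : (T.card : ℝ) ≤ 2 * (2 ^ n) ^ (2 * s) := by
      have h1 : T.card ≤ 2 * S.card := by
        refine le_trans (Finset.card_filter_le _ _) (le_of_eq ?_)
        rw [Finset.card_product, Finset.card_univ, Fintype.card_bool]
      have h2 : S.card ≤ (2 ^ n) ^ (2 * s) := hScard.trans (Nat.pow_le_pow_left hn2 _)
      have h3 : T.card ≤ 2 * (2 ^ n) ^ (2 * s) := h1.trans (Nat.mul_le_mul_left _ h2)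
      exact_mod_cast h3
    have hsum : ((badE n r e f).card : ℝ) ≤
        (2 * (2 ^ n) ^ (2 * s)) * ((1 / 2) ^ (n ^ 3 * s) * 2 ^ (2 ^ n)) := by
      calc ((badE n r e f).card : ℝ) ≤ ((T.biUnion F).card : ℝ) := by
            exact_mod_cast Finset.card_le_card hcover
        _ ≤ ∑ p ∈ T, ((F p).card : ℝ) := by exact_mod_cast Finset.card_biUnion_le
        _ ≤ ∑ _p ∈ T, ((1 / 2 : ℝ) ^ (n ^ 3 * s) * 2 ^ (2 ^ n)) := Finset.sum_le_sum hF
        _ = T.card * ((1 / 2 : ℝ) ^ (n ^ 3 * s) * 2 ^ (2 ^ n)) := by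
            rw [Finset.sum_const, nsmul_eq_mul]
        _ ≤ _ := mul_le_mul_of_nonneg_right hTcard (by positivity)
    have hexp : (2 : ℝ) * (2 ^ n) ^ (2 * s) * (2 ^ n * (2 * n)) ≤ 2 ^ (n ^ 3 * s) := by
      have h1 : (2 * n : ℝ) ≤ 2 ^ n := by
        have : 2 * n ≤ 2 ^ n := by nlinarith
        exact_mod_cast this
      have h2 : (2 : ℝ) * (2 ^ n) ^ (2 * s) * (2 ^ n * (2 * n)) ≤
          2 * (2 ^ n) ^ (2 * s) * (2 ^ n * 2 ^ n) := by
        apply mul_le_mul_of_nonneg_left _ (by positivity)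
        exact mul_le_mul_of_nonneg_left h1 (by positivity)
      refine h2.trans ?_
      have h3 : (2 : ℝ) * (2 ^ n) ^ (2 * s) * (2 ^ n * 2 ^ n) = 2 ^ (1 + n * (2 * s) + (n + n)) := by
        rw [← pow_mul, pow_add, pow_add, pow_one, pow_add]
      rw [h3]
      apply pow_le_pow_right₀ (by norm_num)
      have h4 : 5 * (n * s) ≤ n ^ 3 * s := by
        calc 5 * (n * s) ≤ (n ^ 2) * (n * s) := Nat.mul_le_mul_right _ (by nlinarith)
          _ = n ^ 3 * s := by ring
      have h5 : n * 1 ≤ n * s := Nat.mul_le_mul_left _ hspos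
      have h6 : n * (2 * s) = 2 * (n * s) := by ring
      rw [h6]
      omega
    have hfin : ((badE n r e f).card : ℝ) * (2 ^ n * (2 * n)) ≤ 2 ^ (2 ^ n) := by
      calc ((badE n r e f).card : ℝ) * (2 ^ n * (2 * n))
          ≤ ((2 * (2 ^ n) ^ (2 * s)) * ((1 / 2) ^ (n ^ 3 * s) * 2 ^ (2 ^ n))) *
            (2 ^ n * (2 * n)) := mul_le_mul_of_nonneg_right hsum (by positivity)
        _ = (2 * (2 ^ n) ^ (2 * s) * (2 ^ n * (2 * n))) * ((1 / 2) ^ (n ^ 3 * s) * 2 ^ (2 ^ n)) := by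
            ring
        _ ≤ 2 ^ (n ^ 3 * s) * ((1 / 2) ^ (n ^ 3 * s) * 2 ^ (2 ^ n)) :=
            mul_le_mul_of_nonneg_right hexp (by positivity)
        _ = 2 ^ (2 ^ n) := by
            rw [← mul_assoc, ← mul_pow]
            norm_num
    exact_mod_cast hfin

/-- The hard pair. -/
theorem core (n r : ℕ) (hr : 2 ^ r ≤ 4 * n ^ 2) (hrn : r ≤ n) (hn : 10 ≤ n)
    (hn2 : 2 * n ^ 2 + 3 ≤ 2 ^ n) (hr2 : 2 * (n + 2) ^ n < 2 ^ (2 ^ r)) :
    ∃ f g : (Fin n → Bool) → Bool, (∀ b, ∃ y, f y = b) ∧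
      (∀ c, (univ.filter (fun v => g v = c)).card = 2 ^ (n - 1)) ∧
      ∀ e, 1 ≤ e → e ≤ n → ∀ (b : Bool) (φ : Fml (Fin n × Fin n)),
        (2 ^ n) ^ n ≤ 2 ^ (e * (n - r)) * (Dset n (fun x => φ.eval x) b).card →
        (∀ X ∈ Dset n (fun x => φ.eval x) b, f (fun i => g (X i)) = b) →
        2 ^ (n - e) < n ^ 8 * φ.size := by
  obtain ⟨f, hf⟩ := robust_exists (ι := Fin n) r (by rw [Fintype.card_fin]; exact hr2)
  have hcardV : Fintype.card (Fin n → Bool) = 2 ^ n := by
    rw [Fintype.card_fun, Fintype.card_bool, Fintype.card_fin]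
  have hbal0 := card_balanced (V := Fin n → Bool) n (by omega) hcardV
  rw [hcardV] at hbal0
  obtain ⟨Bal, hBal, hbal⟩ : ∃ Bal : Finset ((Fin n → Bool) → Bool),
      (∀ g ∈ Bal, (univ.filter (fun v => g v = true)).card = 2 ^ (n - 1)) ∧
      2 ^ 2 ^ n ≤ 2 ^ n * Bal.card :=
    ⟨_, fun g hg => (mem_filter.1 hg).2, hbal0⟩
  clear hbal0
  have hex : ∃ g ∈ Bal, g ∉ (Finset.Icc 1 n).biUnion (fun e => badE n r e f) := by
    by_contra hcon
    push Not at hcon
    have hsub : Bal ⊆ (Finset.Icc 1 n).biUnion (fun e => badE n r e f) := hcon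
    have h1 : Bal.card * (2 ^ n * (2 * n)) ≤ n * 2 ^ (2 ^ n) := by
      calc Bal.card * (2 ^ n * (2 * n))
          ≤ (∑ e ∈ Finset.Icc 1 n, (badE n r e f).card) * (2 ^ n * (2 * n)) :=
            Nat.mul_le_mul_right _ ((Finset.card_le_card hsub).trans Finset.card_biUnion_le)
        _ = ∑ e ∈ Finset.Icc 1 n, (badE n r e f).card * (2 ^ n * (2 * n)) := by
            rw [Finset.sum_mul]
        _ ≤ ∑ _e ∈ Finset.Icc 1 n, 2 ^ (2 ^ n) := by
            apply Finset.sum_le_sum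
            intro e he
            rw [Finset.mem_Icc] at he
            exact badE_card n r e f hf hr hrn hn hn2 he.1 he.2
        _ = n * 2 ^ (2 ^ n) := by
            rw [Finset.sum_const, smul_eq_mul, Nat.card_Icc, Nat.add_sub_cancel]
    have hpos : 0 < 2 ^ (2 ^ n) := Nat.pow_pos (by norm_num)
    generalize 2 ^ 2 ^ n = N at h1 hbal hpos
    have h2 : N * (2 * n) ≤ n * N := by
      calc N * (2 * n) ≤ (2 ^ n * Bal.card) * (2 * n) := Nat.mul_le_mul_right _ hbal
        _ = Bal.card * (2 ^ n * (2 * n)) := by ring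
        _ ≤ _ := h1
    have h3 : 0 < N * n := Nat.mul_pos hpos (by omega)
    nlinarith
  obtain ⟨g, hgB, hg⟩ := hex
  refine ⟨f, g, ?_, ?_, ?_⟩
  · intro b
    obtain ⟨R, hR⟩ := Finset.exists_subset_card_eq (s := (univ : Finset (Fin n))) (n := r)
      (by rw [Finset.card_univ, Fintype.card_fin]; exact hrn)
    obtain ⟨y, hy⟩ := hf R (fun i => Sum.inl i) hR.2 (fun j _ => rfl) b
    exact ⟨y, by simpa using hy⟩
  · have h1 : (univ.filter (fun v => g v = true)).card = 2 ^ (n - 1) := hBal g hgB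
    intro c
    cases c with
    | true => exact h1
    | false =>
      have h2 := Finset.card_filter_add_card_filter_not
        (s := (univ : Finset (Fin n → Bool))) (fun v => g v = true)
      have h3 : (univ.filter (fun v => ¬ g v = true)) = univ.filter (fun v => g v = false) := by
        apply Finset.filter_congr
        intro v _
        cases g v <;> simp
      rw [h3, h1, Finset.card_univ, hcardV] at h2
      have h4 : 2 ^ n = 2 ^ (n - 1) + 2 ^ (n - 1) := by
        rw [← two_mul, ← pow_succ', Nat.sub_add_cancel (by omega)]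
      omega
  · intro e he hen b φ hdense hcont
    by_contra hcon
    push Not at hcon
    apply hg
    rw [mem_biUnion]
    refine ⟨e, Finset.mem_Icc.2 ⟨he, hen⟩, ?_⟩
    simp only [badE, mem_filter, mem_univ, true_and]
    exact ⟨b, φ, hcon, hdense, hcont⟩

end MP979
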