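import Mathlib
import Pool.Agent.Lib.MP_979eef_lc.Core2

/-!
# MP_979eef_lc: the bounds for an AND (or OR) of few formulas and for formulas with few OR gates
at the top
-/

namespace MP979

open Finset Classical

lemma pow_two_ge (l : ℕ) (hl : 5 ≤ l) : 4 * l + 4 ≤ 2 ^ l := by
  induction l, hl using Nat.le_induction with
  | base => norm_num
  | succ l hl ih => rw [pow_succ]; omega

lemma pow_two_ge' (n : ℕ) (hn : 10 ≤ n) : 2 * n ^ 2 + 3 ≤ 2 ^ n := by
  induction n, hn using Nat.le_induction with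
  | base => norm_num
  | succ n hn ih =>
    rw [pow_succ 2 n]
    nlinarith

/-- The hard pair, with a bound in logarithmic form. -/
theorem main_bound (n : ℕ) (hn : 32 ≤ n) :
    ∃ f g : (Fin n → Bool) → Bool, NonConst f ∧ NonConst g ∧
      ∀ (b : Bool) (M : ℕ) (ψ : Fml (Fin n × Fin n)),
        (∀ x : Fin n × Fin n → Bool, ψ.eval x = b → comp f g x = b) →
        (univ.filter (fun X : Fin n → Fin n → Bool => comp f g (fun p => X p.1 p.2) = b)).card ≤
          M * (Dset n (fun x => ψ.eval x) b).card →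
        n ≤ Nat.log 2 ψ.size + Nat.log 2 M / n + 28 * Nat.log 2 n := by
  set l := Nat.log 2 n with hl
  have hn0 : n ≠ 0 := by omega
  have hl5 : 5 ≤ l := by
    rw [hl]
    exact Nat.le_log_of_pow_le (by norm_num) (by simpa using hn)
  have h2l : 2 ^ l ≤ n := Nat.pow_log_le_self 2 hn0
  have hnl : n < 2 ^ (l + 1) := Nat.lt_pow_succ_log_self (by norm_num) n
  set r := 2 * (l + 1) with hr
  have h4l := pow_two_ge l hl5
  have hrn2 : 2 * r ≤ n := by omega
  have hpr : 2 ^ r = (2 ^ (l + 1)) ^ 2 := by rw [hr, ← pow_mul, mul_comm]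
  have hr1 : 2 ^ r ≤ 4 * n ^ 2 := by
    rw [hpr, pow_succ 2 l]
    nlinarith
  have hr2 : 2 * (n + 2) ^ n < 2 ^ (2 ^ r) := by
    have h1 : n + 2 ≤ 2 ^ (l + 2) := by
      rw [pow_succ]
      omega
    have h2 : 2 * (n + 2) ^ n ≤ 2 ^ (1 + (l + 2) * n) := by
      calc 2 * (n + 2) ^ n ≤ 2 * (2 ^ (l + 2)) ^ n :=
            Nat.mul_le_mul_left _ (Nat.pow_le_pow_left h1 _)
        _ = 2 ^ (1 + (l + 2) * n) := by rw [← pow_mul, pow_add, pow_one]
    refine lt_of_le_of_lt h2 (Nat.pow_lt_pow_right (by norm_num) ?_)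
    rw [hpr]
    have h3 : n + 1 ≤ 2 ^ (l + 1) := hnl
    have h4 : (n + 1) ^ 2 ≤ (2 ^ (l + 1)) ^ 2 := Nat.pow_le_pow_left h3 2
    have h5 : (l + 2) * n ≤ n * n := Nat.mul_le_mul_right _ (by omega)
    nlinarith
  obtain ⟨f, g, hf, hg, hcore⟩ := core n r hr1 (by omega) (by omega) (pow_two_ge' n (by omega)) hr2
  have hgex : ∀ c, ∃ v, g v = c := by
    intro c
    have h1 : 0 < (univ.filter (fun v => g v = c)).card := by
      rw [hg c]
      exact Nat.pow_pos (by norm_num)
    obtain ⟨v, hv⟩ := Finset.card_pos.1 h1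
    exact ⟨v, (mem_filter.1 hv).2⟩
  refine ⟨f, g, ⟨hf true, hf false⟩, ⟨hgex true, hgex false⟩, ?_⟩
  intro b M ψ hcont hcard
  have hfib := card_fibre f g b (hf b) hg
  have hcard' : (2 ^ (n - 1)) ^ n ≤ M * (Dset n (fun x => ψ.eval x) b).card := by
    refine le_trans hfib ?_
    exact hcard
  set q := Nat.log 2 M / n with hq
  by_cases hqn : n ≤ q
  · omega
  push Not at hqn
  have hMlog : M ≤ 2 ^ (Nat.log 2 M + 1) := (Nat.lt_pow_succ_log_self (by norm_num) M).le
  have hqdiv : Nat.log 2 M + 1 ≤ n * (q + 1) := by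
    have := Nat.lt_mul_div_succ (Nat.log 2 M) (show 0 < n by omega)
    rw [← hq] at this
    exact this
  set e := q + 2 * (r + 2) with he
  by_cases hen : e ≤ n
  · have hexp : n + (Nat.log 2 M + 1) ≤ e * (n - r) := by
      obtain ⟨d, hd⟩ : ∃ d, n = d + r := ⟨n - r, by omega⟩
      have hd2 : n - r = d := by omega
      rw [hd2, he]
      have h1 : r ≤ d := by omega
      have h2 : q * r ≤ n * r := Nat.mul_le_mul_right _ hqn.le
      have h3 : n + n * (q + 1) ≤ (q + 2 * (r + 2)) * d := by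
        have h4 : n * (r + 2) ≤ 2 * (r + 2) * d := by
          calc n * (r + 2) = (d + r) * (r + 2) := by rw [← hd]
            _ ≤ (2 * d) * (r + 2) := Nat.mul_le_mul_right _ (by omega)
            _ = 2 * (r + 2) * d := by ring
        calc n + n * (q + 1) = n * q + 2 * n := by ring
          _ = q * d + (q * r + 2 * n) := by nth_rewrite 1 [hd]; ring
          _ ≤ q * d + (n * r + 2 * n) := by omega
          _ = q * d + n * (r + 2) := by ring
          _ ≤ q * d + 2 * (r + 2) * d := by omega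
          _ = _ := by ring
      omega
    have hdense : (2 ^ n) ^ n ≤ 2 ^ (e * (n - r)) * (Dset n (fun x => ψ.eval x) b).card := by
      calc (2 ^ n) ^ n = 2 ^ n * (2 ^ (n - 1)) ^ n := by
            rw [← mul_pow, ← pow_succ', Nat.sub_add_cancel (by omega)]
        _ ≤ 2 ^ n * (M * (Dset n (fun x => ψ.eval x) b).card) := Nat.mul_le_mul_left _ hcard'
        _ ≤ 2 ^ n * (2 ^ (Nat.log 2 M + 1) * (Dset n (fun x => ψ.eval x) b).card) :=
            Nat.mul_le_mul_left _ (Nat.mul_le_mul_right _ hMlog)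
        _ = 2 ^ (n + (Nat.log 2 M + 1)) * (Dset n (fun x => ψ.eval x) b).card := by
            rw [pow_add]; ring
        _ ≤ _ := Nat.mul_le_mul_right _ (Nat.pow_le_pow_right (by norm_num) hexp)
    have he1 : 1 ≤ e := by
      have h0 : 2 * (r + 2) ≤ e := Nat.le_add_left _ _
      exact le_trans (by omega) h0
    have h1 := hcore e he1 hen b ψ hdense (by
      intro X hX
      rw [mem_Dset] at hX
      exact hcont _ hX)
    have hslog : ψ.size ≤ 2 ^ (Nat.log 2 ψ.size + 1) :=
      (Nat.lt_pow_succ_log_self (by norm_num) _).le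
    have h2 : n ^ 8 ≤ 2 ^ (8 * (l + 1)) := by
      calc n ^ 8 ≤ (2 ^ (l + 1)) ^ 8 := Nat.pow_le_pow_left hnl.le 8
        _ = _ := by rw [← pow_mul, mul_comm]
    have h3 : 2 ^ (n - e) < 2 ^ (8 * (l + 1) + (Nat.log 2 ψ.size + 1)) := by
      refine lt_of_lt_of_le h1 ?_
      rw [pow_add]
      exact Nat.mul_le_mul h2 hslog
    have h4 := (Nat.pow_lt_pow_iff_right (by norm_num)).1 h3
    omega
  · omega

/-- An AND (or OR) of few small formulas does not compute `f ◇ g`. -/
theorem bound_list {n : ℕ} {f g : (Fin n → Bool) → Bool}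
    (hf : NonConst f) (hg : NonConst g)
    (H : ∀ (b : Bool) (M : ℕ) (ψ : Fml (Fin n × Fin n)),
        (∀ x : Fin n × Fin n → Bool, ψ.eval x = b → comp f g x = b) →
        (univ.filter (fun X : Fin n → Fin n → Bool => comp f g (fun p => X p.1 p.2) = b)).card ≤
          M * (Dset n (fun x => ψ.eval x) b).card →
        n ≤ Nat.log 2 ψ.size + Nat.log 2 M / n + 28 * Nat.log 2 n)
    (b : Bool) (L : List (Fml (Fin n × Fin n))) (s : ℕ) (hs : ∀ ψ ∈ L, ψ.size ≤ s)
    (hL : ∀ x, comp f g x = b ↔ ∃ ψ ∈ L, ψ.eval x = b) :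
    n ≤ Nat.log 2 s + Nat.log 2 L.length / n + 28 * Nat.log 2 n := by
  set Z := univ.filter (fun X : Fin n → Fin n → Bool => comp f g (fun p => X p.1 p.2) = b) with hZ
  have hZpos : 0 < Z.card := by
    have hfb : ∃ y, f y = b := by
      cases b with
      | true => exact hf.1
      | false => exact hf.2
    have hgb : ∀ c : Bool, ∃ v, g v = c := by
      intro c
      cases c with
      | true => exact hg.1
      | false => exact hg.2
    obtain ⟨y, hy⟩ := hfb
    choose v hv using hgb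
    refine Finset.card_pos.2 ⟨fun i => v (y i), ?_⟩
    rw [hZ, mem_filter]
    refine ⟨mem_univ _, ?_⟩
    simp only [comp]
    rw [← hy]
    congr 1
    funext i
    exact hv (y i)
  have hcover : Z ⊆ L.toFinset.biUnion (fun ψ => Dset n (fun x => ψ.eval x) b) := by
    intro X hX
    rw [hZ, mem_filter] at hX
    obtain ⟨ψ, hψ, hψX⟩ := (hL _).1 hX.2
    rw [mem_biUnion]
    exact ⟨ψ, List.mem_toFinset.2 hψ, mem_Dset.2 hψX⟩
  have hex : ∃ ψ ∈ L, Z.card ≤ L.length * (Dset n (fun x => ψ.eval x) b).card := by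
    by_contra hcon
    push Not at hcon
    have h1 : Z.card ≤ ∑ ψ ∈ L.toFinset, (Dset n (fun x => ψ.eval x) b).card :=
      (Finset.card_le_card hcover).trans Finset.card_biUnion_le
    have hLne : L.toFinset.Nonempty := by
      by_contra hemp
      rw [Finset.not_nonempty_iff_eq_empty] at hemp
      rw [hemp, Finset.sum_empty] at h1
      omega
    have h2 : L.length * Z.card < L.length * Z.card := by
      calc L.length * Z.card ≤ L.length * ∑ ψ ∈ L.toFinset, (Dset n (fun x => ψ.eval x) b).card :=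
            Nat.mul_le_mul_left _ h1
        _ = ∑ ψ ∈ L.toFinset, L.length * (Dset n (fun x => ψ.eval x) b).card := by
            rw [Finset.mul_sum]
        _ < ∑ _ψ ∈ L.toFinset, Z.card := by
            apply Finset.sum_lt_sum_of_nonempty hLne
            intro ψ hψ
            exact hcon ψ (List.mem_toFinset.1 hψ)
        _ = L.toFinset.card * Z.card := by rw [Finset.sum_const, smul_eq_mul]
        _ ≤ L.length * Z.card := Nat.mul_le_mul_right _ (List.toFinset_card_le L)
    exact lt_irrefl _ h2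
  obtain ⟨ψ, hψ, hψc⟩ := hex
  have h1 := H b L.length ψ (fun x hx => (hL x).2 ⟨ψ, hψ, hx⟩) hψc
  have h2 : Nat.log 2 ψ.size ≤ Nat.log 2 s := Nat.log_mono_right (hs ψ hψ)
  omega

theorem bound_top {n : ℕ} {h : (Fin n × Fin n → Bool) → Bool}
    (H : ∀ (L : List (Fml (Fin n × Fin n))) (s : ℕ), (∀ ψ ∈ L, ψ.size ≤ s) →
      ((∀ x, h x = true ↔ ∀ ψ ∈ L, ψ.eval x = true) ∨
        (∀ x, h x = true ↔ ∃ ψ ∈ L, ψ.eval x = true)) →
      n ≤ Nat.log 2 s + Nat.log 2 L.length / n + 28 * Nat.log 2 n)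
    (φ : Fml (Fin n × Fin n)) (hφ : ∀ x, φ.eval x = h x) (k m : ℕ)
    (hkm : φ.orTop k ≤ m ∨ φ.andTop k ≤ m) :
    n ≤ (φ.depth - k) + m + k * 2 ^ m / n + 28 * Nat.log 2 n := by
  have key : ∀ L : List (Fml (Fin n × Fin n)), L.length ≤ 2 ^ (k * 2 ^ m) →
      (∀ ψ ∈ L, ψ.size ≤ 2 ^ m * 2 ^ (φ.depth - k)) →
      ((∀ x, h x = true ↔ ∀ ψ ∈ L, ψ.eval x = true) ∨
        (∀ x, h x = true ↔ ∃ ψ ∈ L, ψ.eval x = true)) →
      n ≤ (φ.depth - k) + m + k * 2 ^ m / n + 28 * Nat.log 2 n := by
    intro L h1 h2 h3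
    have h4 := H L _ h2 h3
    rw [← pow_add, Nat.log_pow (by norm_num)] at h4
    have h5 : Nat.log 2 L.length ≤ k * 2 ^ m := by
      have := Nat.log_mono_right (b := 2) h1
      rwa [Nat.log_pow (by norm_num)] at this
    have h6 : Nat.log 2 L.length / n ≤ k * 2 ^ m / n := Nat.div_le_div_right h5
    omega
  rcases hkm with hkm | hkm
  · obtain ⟨L, hL1, hL2, hL3⟩ := Fml.expand k m φ hkm
    exact key L hL2 hL3 (Or.inl (fun x => by rw [← hφ x]; exact hL1 x))
  · rw [← Fml.orTop_dual] at hkm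
    obtain ⟨L, hL1, hL2, hL3⟩ := Fml.expand k m φ.dual hkm
    rw [Fml.depth_dual] at hL3
    refine key (L.map Fml.dual) (by rw [List.length_map]; exact hL2) ?_ (Or.inr ?_)
    · intro ψ hψ
      rw [List.mem_map] at hψ
      obtain ⟨ψ', hψ', rfl⟩ := hψ
      rw [Fml.size_dual]
      exact hL3 ψ' hψ'
    · intro x
      have h1 := hL1 x
      rw [Fml.eval_dual, hφ x] at h1
      constructor
      · intro hx
        rw [hx] at h1
        by_contra hcon
        push Not at hcon
        have : (!true) = true := h1.2 (by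
          intro ψ hψ
          have := hcon (ψ.dual) (List.mem_map_of_mem hψ)
          rw [Fml.eval_dual] at this
          simpa using this)
        exact absurd this (by decide)
      · rintro ⟨ψ, hψ, hψx⟩
        rw [List.mem_map] at hψ
        obtain ⟨ψ', hψ', rfl⟩ := hψ
        rw [Fml.eval_dual] at hψx
        by_contra hcon
        have h2 : (!(h x)) = true := by
          cases hh : h x with
          | true => exact absurd hh hcon
          | false => rfl
        have h3 := h1.1 h2 ψ' hψ'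
        rw [h3] at hψx
        exact absurd hψx (by decide)

end MP979
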